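import Pool.Agent.H71.CQ.Basic

/-!
# Board cqt_modules, row CLM: the coding substructures are members
-/

set_option autoImplicit false

open Set

namespace Pool.Agent.H54.CQ

open Pool.Agent.H71.CQ

section SEval

variable {L : Type} {N : NF L} {e0 : ℕ → ℕ → L} {J : Type} {e : J → ℕ → ℕ → L}
  {g : ∀ j, {x // Wp N e0 x} ≃ {x // Wp N (e j) x}} {cr : SQ N e → SQ N e → L}

theorem se_ll (k k' : {x // Wp N e0 x}) :
    SE N e0 e g cr (Sum.inl k) (Sum.inl k') = e0 k k' := rfl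

theorem se_lr (k : {x // Wp N e0 x}) (v : SQ N e) :
    SE N e0 e g cr (Sum.inl k) (Sum.inr v) = e v.1 (g v.1 k) v.2 := rfl

theorem se_rl (v : SQ N e) (k : {x // Wp N e0 x}) :
    SE N e0 e g cr (Sum.inr v) (Sum.inl k) = e v.1 v.2 (g v.1 k) := rfl

theorem se_same {v w : SQ N e} (h : v.1 = w.1) :
    SE N e0 e g cr (Sum.inr v) (Sum.inr w) = e v.1 v.2 w.2 := if_pos h

theorem se_diff {v w : SQ N e} (h : v.1 ≠ w.1) :
    SE N e0 e g cr (Sum.inr v) (Sum.inr w) = cr v w := if_neg h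

/-- sums are coherent -/
theorem se_coh (H : SH N e0 e g cr) : Coh N (SE N e0 e g cr) := by
  refine ⟨?_, ?_, ?_, ?_⟩
  · rintro (k | v) (k' | w)
    · exact H.m0.rev k k'
    · exact (H.m w.1).rev _ _
    · exact (H.m v.1).rev _ _
    · obtain ⟨j, y⟩ := v
      obtain ⟨j', z⟩ := w
      by_cases h : j = j'
      · subst h
        rw [se_same (v := ⟨j, z⟩) (w := ⟨j, y⟩) rfl, se_same (v := ⟨j, y⟩) (w := ⟨j, z⟩) rfl]
        exact (H.m j).rev _ _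
      · rw [se_diff (v := ⟨j', z⟩) (w := ⟨j, y⟩) (Ne.symm h),
          se_diff (v := ⟨j, y⟩) (w := ⟨j', z⟩) h]
        exact H.rev _ _ h
  · rintro (k | v) (k' | w)
    · exact H.m0.src k k'
    · rw [se_ll, se_lr, ← (H.m w.1).src, H.w w.1]
    · rw [se_same rfl, se_rl, ← (H.m v.1).src]
    · rw [se_same rfl]
      by_cases h : v.1 = w.1
      · rw [se_same h, ← (H.m v.1).src]
      · rw [se_diff h]
        exact (H.fr v w h).2.1.symm
  · rintro (k | v) (k' | w)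
    · rw [se_ll, H.m0.dia, Sum.inl.injEq, Subtype.ext_iff]
    · rw [se_lr, (H.m w.1).dia]
      constructor
      · intro h
        exact absurd (h ▸ (g w.1 k).2) w.2.2
      · intro h
        cases h
    · rw [se_rl, (H.m v.1).dia]
      constructor
      · intro h
        exact absurd (h.symm ▸ (g v.1 k').2) v.2.2
      · intro h
        cases h
    · obtain ⟨j, y⟩ := v
      obtain ⟨j', z⟩ := w
      by_cases h : j = j'
      · subst h
        rw [se_same (v := ⟨j, y⟩) (w := ⟨j, z⟩) rfl, (H.m j).dia]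
        constructor
        · intro h
          have h' : y = z := Subtype.ext h
          rw [h']
        · intro h
          cases h
          rfl
      · rw [se_diff (v := ⟨j, y⟩) (w := ⟨j', z⟩) h]
        constructor
        · intro h'
          exact absurd h' (H.fr ⟨j, y⟩ ⟨j', z⟩ h).2.2.2.1
        · intro h'
          cases h'
          exact absurd rfl h
  · rintro (k | v) (k' | w)
    · exact H.m0.U _ _
    · exact (H.m w.1).U _ _
    · exact (H.m v.1).U _ _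
    · by_cases h : v.1 = w.1
      · rw [se_same h]
        exact (H.m v.1).U _ _
      · rw [se_diff h]
        exact rl_U (H.fr v w h).1

end SEval

/-- restrictions of coherent labellings -/
theorem coh_restr {L : Type} {N : NF L} {V : Type} {E : V → V → L} (h : Coh N E) (A : Set V) :
    Coh N (fun a b : A => E a b) := by
  refine ⟨fun a b => h.rev a b, fun a b => h.src a b, fun a b => ?_, fun a b => h.U a b⟩
  rw [h.dia, Subtype.ext_iff]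

section Main

variable {L : Type} {N : NF L} {e0 : ℕ → ℕ → L} {e : ℕ → ℕ → ℕ → L}
  {g : ∀ j, {x // Wp N e0 x} ≃ {x // Wp N (e j) x}} {x : ℕ → ℕ} {S : Set ℕ}

/-- the substructure is a union of components -/
theorem as_cm {v : ℕ × ℕ} {y z : ℕ} {hy : ¬ Wp N (e v.1) y} {hz : ¬ Wp N (e v.1) z}
    (h : (Sum.inr ⟨v, y, hy⟩ : SV N e0 (fun j : ℕ × ℕ => e j.1)) ∈ As N e0 e g x S)
    (hc : Cm N (e v.1) y z) :
    (Sum.inr ⟨v, z, hz⟩ : SV N e0 (fun j : ℕ × ℕ => e j.1)) ∈ As N e0 e g x S := by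
  change ∀ m, m ∉ S → PI N (e m) (e v.1) ((g m).symm.trans (g v.1)) (x m) z →
    v = (m, 0) ∧ Cm N (e m) (x m) z
  change ∀ m, m ∉ S → PI N (e m) (e v.1) ((g m).symm.trans (g v.1)) (x m) y →
    v = (m, 0) ∧ Cm N (e m) (x m) y at h
  intro m hm hp
  obtain ⟨h1, h2⟩ := h m hm (hp.of_cm (cm_refl _) hc.symm)
  refine ⟨h1, h2.trans ?_⟩
  have h3 : v.1 = m := by rw [h1]
  rw [← h3]
  exact hc

/-- the algebraic points of the substructure -/
def il (k : {x // Wp N e0 x}) : As N e0 e g x S := ⟨Sum.inl k, trivial⟩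

/-- the number of the copy -/
def cop (a : As N e0 e g x S) : Option (ℕ × ℕ) :=
  match a.1 with
  | Sum.inl _ => none
  | Sum.inr v => some v.1

/-- points in infinitely many copies -/
theorem inf_cop {W : Set (ℕ × ℕ)} (hW : W.Infinite) {T : Set (As N e0 e g x S)}
    (h : ∀ v ∈ W, ∃ a ∈ T, cop a = some v) : T.Infinite := by
  intro hT
  have h1 : (cop '' T).Finite := hT.image _
  have h2 : some '' W ⊆ cop '' T := by
    rintro _ ⟨v, hv, rfl⟩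
    obtain ⟨a, ha, hc⟩ := h v hv
    exact ⟨a, ha, hc⟩
  have h3 : (some '' W).Finite := h1.subset h2
  exact hW ((Set.finite_image_iff (Option.some_injective _).injOn).1 h3)

/-- the points of the copy of `a`, as numbers -/
def num (j : ℕ) (a : As N e0 e g x S) : ℕ :=
  match a.1 with
  | Sum.inl k => g j k
  | Sum.inr v => v.2

/-- the points of the algebraic part, as numbers -/
def num0 (a : As N e0 e g x S) : ℕ :=
  match a.1 with
  | Sum.inl k => k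
  | Sum.inr _ => 0

/-- the relation of being in the same component -/
def cc (a b : As N e0 e g x S) : Prop :=
  match a.1, b.1 with
  | Sum.inl _, Sum.inl _ => True
  | Sum.inr v, Sum.inr w => v.1 = w.1 ∧ Cm N (e v.1.1) v.2 w.2
  | _, _ => False

theorem cc_refl (a : As N e0 e g x S) : cc a a := by
  obtain ⟨a | v, ha⟩ := a
  · trivial
  · exact ⟨rfl, cm_refl _⟩

theorem cc_symm (a b : As N e0 e g x S) (h : cc a b) : cc b a := by
  obtain ⟨k | ⟨i, y⟩, ha⟩ := a <;> obtain ⟨k' | ⟨j, z⟩, hb⟩ := b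
  · trivial
  · exact h.elim
  · exact h.elim
  · obtain ⟨h1, h2⟩ := h
    change i = j at h1
    subst h1
    exact ⟨rfl, Cm.symm h2⟩

theorem cc_trans (a b d : As N e0 e g x S) (h : cc a b) (h' : cc b d) : cc a d := by
  obtain ⟨k | ⟨i, y⟩, ha⟩ := a <;> obtain ⟨k' | ⟨j, z⟩, hb⟩ := b <;>
    obtain ⟨k'' | ⟨j', z'⟩, hd⟩ := d
  · trivial
  · exact h'.elim
  · exact h.elim
  · exact h.elim
  · exact h.elim
  · exact h.elim
  · exact h'.elim
  · obtain ⟨h1, h2⟩ := h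
    obtain ⟨h3, h4⟩ := h'
    change i = j at h1
    change j = j' at h3
    subst h1
    subst h3
    exact ⟨rfl, Cm.trans h2 h4⟩

theorem op_lr (k : {x // Wp N e0 x}) (w : SQ N (fun j : ℕ × ℕ => e j.1)) :
    Op N (Big N e0 e g (Sum.inl k) (Sum.inr w)) := by
  have h : Op N (e w.1.1 (g w.1.1 k) w.2) := op_of_wp (g w.1.1 k).2 w.2.2
  exact h

/-- the main hypotheses, fixed -/
structure Hy (N : NF L) (e0 : ℕ → ℕ → L) (e : ℕ → ℕ → ℕ → L)
    (g : ∀ j, {x // Wp N e0 x} ≃ {x // Wp N (e j) x}) (x : ℕ → ℕ) (S : Set ℕ) : Prop where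
  R : Rob N e0 e g x
  H : SH N e0 (fun j : ℕ × ℕ => e j.1) (fun j => g j.1)
    fun v w => fr N (e v.1.1 v.2 v.2) (e w.1.1 w.2 w.2)
  C : ∀ (j : ℕ) (y : ℕ) (_ : ¬ Wp N (e j) y) (θ : Option {x // Wp N e0 x} × L),
      Hs N (g j) y θ → {v : ℕ × ℕ | ∃ (z : ℕ) (hz : ¬ Wp N (e v.1) z), Hs N (g v.1) z θ ∧
        (Sum.inr ⟨v, z, hz⟩ : SV N e0 (fun j : ℕ × ℕ => e j.1)) ∈ As N e0 e g x S}.Infinite

/-- the structure on the substructure -/
noncomputable abbrev EA (N : NF L) (e0 : ℕ → ℕ → L) (e : ℕ → ℕ → ℕ → L)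
    (g : ∀ j, {x // Wp N e0 x} ≃ {x // Wp N (e j) x}) (x : ℕ → ℕ) (S : Set ℕ) :
    As N e0 e g x S → As N e0 e g x S → L := fun a b => Big N e0 e g a b

theorem Hy.coh (Y : Hy N e0 e g x S) : Coh N (EA N e0 e g x S) := coh_restr (se_coh Y.H) _

/-- infinitely many copies with a point of a colour -/
theorem Hy.col (Y : Hy N e0 e g x S) (j y : ℕ) (hy : ¬ Wp N (e j) y) :
    {v : ℕ × ℕ | ∃ (z : ℕ) (hz : ¬ Wp N (e v.1) z)
      (_ : (Sum.inr ⟨v, z, hz⟩ : SV N e0 (fun j : ℕ × ℕ => e j.1)) ∈ As N e0 e g x S),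
        e v.1 z z = e j y y}.Infinite := by
  refine (Y.C j y hy (none, e j y y) ⟨y, cm_refl y, rfl⟩).mono ?_
  rintro v ⟨z, hz, ⟨z', h1, h2⟩, h3⟩
  exact ⟨z', h1.not_wp hz, as_cm h3 h1, h2⟩

/-- infinitely many copies with a point of a given label to an algebraic point -/
theorem Hy.lab (Y : Hy N e0 e g x S) (j y : ℕ) (hy : ¬ Wp N (e j) y) (k : {x // Wp N e0 x}) :
    {v : ℕ × ℕ | ∃ (z : ℕ) (hz : ¬ Wp N (e v.1) z)
      (_ : (Sum.inr ⟨v, z, hz⟩ : SV N e0 (fun j : ℕ × ℕ => e j.1)) ∈ As N e0 e g x S),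
        e v.1 (g v.1 k) z = e j (g j k) y}.Infinite := by
  refine (Y.C j y hy (some k, e j (g j k) y) ⟨y, cm_refl y, rfl⟩).mono ?_
  rintro v ⟨z, hz, ⟨z', h1, h2⟩, h3⟩
  exact ⟨z', h1.not_wp hz, as_cm h3 h1, h2⟩

/-! ### the local models at the algebraic points -/

theorem Hy.cnt_l (Y : Hy N e0 e g x S) (k : {x // Wp N e0 x}) (h0 : (Sum.inl k :
    SV N e0 (fun j : ℕ × ℕ => e j.1)) ∈ As N e0 e g x S) (l : L) (hl : ¬ Op N l) :
    {b | EA N e0 e g x S ⟨Sum.inl k, h0⟩ b = l}.encard = {y | e 0 (g 0 k) y = l}.encard := by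
  have h1 : InjOn (num (N := N) (e0 := e0) (e := e) (g := g) (x := x) (S := S) 0)
      {b | EA N e0 e g x S ⟨Sum.inl k, h0⟩ b = l} := by
    rintro ⟨a | v, ha⟩ h ⟨b | w, hb⟩ h' hab
    · change ((g 0 a : {x // Wp N (e 0) x}) : ℕ) = (g 0 b : {x // Wp N (e 0) x}) at hab
      have h2 : a = b := (g 0).injective (Subtype.ext hab)
      subst h2
      rfl
    · exfalso
      apply hl
      rw [← h']
      exact op_lr k w
    · exfalso
      apply hl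
      rw [← h]
      exact op_lr k v
    · exfalso
      apply hl
      rw [← h]
      exact op_lr k v
  rw [← h1.encard_image]
  apply congrArg
  ext z
  constructor
  · rintro ⟨⟨a | v, ha⟩, h, rfl⟩
    · change e 0 (g 0 k) (g 0 a) = l
      rw [Y.R.w 0]
      exact h
    · exfalso
      apply hl
      rw [← h]
      exact op_lr k v
  · intro hz
    have hw : Wp N (e 0) z := Wp.step _ z (g 0 k).2 (by
      change e 0 (g 0 k) z = l at hz
      rw [hz]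
      exact hl)
    refine ⟨⟨Sum.inl ((g 0).symm ⟨z, hw⟩), trivial⟩, ?_, ?_⟩
    · change e0 k ((g 0).symm ⟨z, hw⟩) = l
      rw [← Y.R.w 0, (g 0).apply_symm_apply]
      exact hz
    · change ((g 0 ((g 0).symm ⟨z, hw⟩) : {x // Wp N (e 0) x}) : ℕ) = z
      rw [(g 0).apply_symm_apply]

theorem Hy.inf_l (Y : Hy N e0 e g x S) (k : {x // Wp N e0 x}) (h0 : (Sum.inl k :
    SV N e0 (fun j : ℕ × ℕ => e j.1)) ∈ As N e0 e g x S) (n : ℕ)
    (hn : {z | e 0 (g 0 k) z ∈ N.B n}.Infinite) :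
    {b | EA N e0 e g x S ⟨Sum.inl k, h0⟩ b ∈ N.B n}.Infinite := by
  by_cases hz : ∃ z, ¬ Wp N (e 0) z ∧ e 0 (g 0 k) z ∈ N.B n
  · obtain ⟨z, hz1, hz2⟩ := hz
    refine inf_cop (Y.lab 0 z hz1 k) ?_
    rintro v ⟨z', hz', hm, he⟩
    refine ⟨⟨_, hm⟩, ?_, rfl⟩
    change e v.1 (g v.1 k) z' ∈ N.B n
    rw [he]
    exact hz2
  · push Not at hz
    have h1 : ∀ z, e 0 (g 0 k) z ∈ N.B n → Wp N (e 0) z := by
      intro z h
      by_contra h'
      exact hz z h' h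
    intro hfin
    apply hn
    refine (hfin.image (num 0)).subset ?_
    intro z h
    refine ⟨⟨Sum.inl ((g 0).symm ⟨z, h1 z h⟩), trivial⟩, ?_, ?_⟩
    · change e0 k ((g 0).symm ⟨z, h1 z h⟩) ∈ N.B n
      rw [← Y.R.w 0, (g 0).apply_symm_apply]
      exact h
    · change ((g 0 ((g 0).symm ⟨z, h1 z h⟩) : {x // Wp N (e 0) x}) : ℕ) = z
      rw [(g 0).apply_symm_apply]

/-! ### the local models at the other points -/

theorem Hy.cnt_r (Y : Hy N e0 e g x S) (v : ℕ × ℕ) (y : ℕ) (hy : ¬ Wp N (e v.1) y)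
    (h0 : (Sum.inr ⟨v, y, hy⟩ : SV N e0 (fun j : ℕ × ℕ => e j.1)) ∈ As N e0 e g x S) (l : L)
    (hl : ¬ Op N l) :
    {b | EA N e0 e g x S ⟨Sum.inr ⟨v, y, hy⟩, h0⟩ b = l}.encard
      = {z | e v.1 y z = l}.encard := by
  have key : ∀ w : SQ N (fun j : ℕ × ℕ => e j.1), Big N e0 e g (Sum.inr ⟨v, y, hy⟩) (Sum.inr w) = l →
      v = w.1 := by
    intro w h
    by_contra h1
    apply hl
    rw [← h]
    have h2 : Big N e0 e g (Sum.inr ⟨v, y, hy⟩) (Sum.inr w)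
      = fr N (e v.1 y y) (e w.1.1 w.2 w.2) := se_diff h1
    rw [h2]
    exact (Y.H.fr ⟨v, y, hy⟩ w h1).2.2.2.2.1
  have h1 : InjOn (num (N := N) (e0 := e0) (e := e) (g := g) (x := x) (S := S) v.1)
      {b | EA N e0 e g x S ⟨Sum.inr ⟨v, y, hy⟩, h0⟩ b = l} := by
    rintro ⟨a | ⟨v', a⟩, ha⟩ h ⟨b | ⟨w', b⟩, hb⟩ h' hab
    · change ((g v.1 a : {x // Wp N (e v.1) x}) : ℕ) = (g v.1 b : {x // Wp N (e v.1) x}) at hab
      have h2 : a = b := (g v.1).injective (Subtype.ext hab)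
      subst h2
      rfl
    · exfalso
      have h2 : v = w' := key _ h'
      subst h2
      change ((g v.1 a : {x // Wp N (e v.1) x}) : ℕ) = b at hab
      exact b.2 (hab ▸ (g v.1 a).2)
    · exfalso
      have h2 : v = v' := key _ h
      subst h2
      change (a : ℕ) = (g v.1 b : {x // Wp N (e v.1) x}) at hab
      exact a.2 (hab.symm ▸ (g v.1 b).2)
    · have h2 : v = w' := key _ h'
      have h3 : v = v' := key _ h
      subst h2
      subst h3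
      have h4 : a = b := Subtype.ext hab
      subst h4
      rfl
  rw [← h1.encard_image]
  apply congrArg
  ext z
  constructor
  · rintro ⟨⟨a | ⟨v', a⟩, ha⟩, h, rfl⟩
    · exact h
    · have h2 : v = v' := key _ h
      subst h2
      change Big N e0 e g (Sum.inr ⟨v, y, hy⟩) (Sum.inr ⟨v, a⟩) = l at h
      have h3 : Big N e0 e g (Sum.inr ⟨v, y, hy⟩) (Sum.inr ⟨v, a⟩) = e v.1 y a := se_same rfl
      rw [h3] at h
      exact h
  · intro hz
    change e v.1 y z = l at hz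
    by_cases hw : Wp N (e v.1) z
    · refine ⟨⟨Sum.inl ((g v.1).symm ⟨z, hw⟩), trivial⟩, ?_, ?_⟩
      · change e v.1 y (g v.1 ((g v.1).symm ⟨z, hw⟩)) = l
        rw [(g v.1).apply_symm_apply]
        exact hz
      · change ((g v.1 ((g v.1).symm ⟨z, hw⟩) : {x // Wp N (e v.1) x}) : ℕ) = z
        rw [(g v.1).apply_symm_apply]
    · have hc : Cm N (e v.1) y z := Relation.ReflTransGen.single ⟨hy, hw, Or.inl (by
        rw [hz]
        exact hl)⟩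
      refine ⟨⟨Sum.inr ⟨v, z, hw⟩, as_cm h0 hc⟩, ?_, rfl⟩
      change Big N e0 e g (Sum.inr ⟨v, y, hy⟩) (Sum.inr ⟨v, z, hw⟩) = l
      rw [← hz]
      exact se_same rfl

theorem Hy.inf_r (hU : HUn2 N) (Y : Hy N e0 e g x S) (v : ℕ × ℕ) (y : ℕ)
    (hy : ¬ Wp N (e v.1) y)
    (h0 : (Sum.inr ⟨v, y, hy⟩ : SV N e0 (fun j : ℕ × ℕ => e j.1)) ∈ As N e0 e g x S) (n : ℕ)
    (hn : {z | e v.1 y z ∈ N.B n}.Infinite) :
    {b | EA N e0 e g x S ⟨Sum.inr ⟨v, y, hy⟩, h0⟩ b ∈ N.B n}.Infinite := by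
  by_cases hz : ∃ z, ¬ Wp N (e v.1) z ∧ ¬ Cm N (e v.1) y z ∧ e v.1 y z ∈ N.B n
  · obtain ⟨z, hz1, hz2, hz3⟩ := hz
    have hfr : fr N (e v.1 y y) (e v.1 z z) = e v.1 y z :=
      fr_eq (hU (e v.1) (e v.1) (Y.R.m v.1) (Y.R.m v.1) (sim_refl _) y z hy hz1)
        (fr_of_cm (Y.R.m v.1) hy hz1 hz2)
    refine inf_cop ((Y.col v.1 z hz1).sdiff (Set.finite_singleton v)) ?_
    rintro v' ⟨⟨z', hz', hm, he⟩, hv⟩
    refine ⟨⟨_, hm⟩, ?_, rfl⟩
    change Big N e0 e g (Sum.inr ⟨v, y, hy⟩) (Sum.inr ⟨v', z', hz'⟩) ∈ N.B n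
    have h2 : Big N e0 e g (Sum.inr ⟨v, y, hy⟩) (Sum.inr ⟨v', z', hz'⟩)
      = fr N (e v.1 y y) (e v'.1 z' z') := se_diff (fun h => hv h.symm)
    rw [h2, he, hfr]
    exact hz3
  · push Not at hz
    intro hfin
    apply hn
    refine (hfin.image (num v.1)).subset ?_
    intro z h
    by_cases hw : Wp N (e v.1) z
    · refine ⟨⟨Sum.inl ((g v.1).symm ⟨z, hw⟩), trivial⟩, ?_, ?_⟩
      · change e v.1 y (g v.1 ((g v.1).symm ⟨z, hw⟩)) ∈ N.B n
        rw [(g v.1).apply_symm_apply]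
        exact h
      · change ((g v.1 ((g v.1).symm ⟨z, hw⟩) : {x // Wp N (e v.1) x}) : ℕ) = z
        rw [(g v.1).apply_symm_apply]
    · have hc : Cm N (e v.1) y z := by
        by_contra hc
        exact hz z hw hc h
      refine ⟨⟨Sum.inr ⟨v, z, hw⟩, as_cm h0 hc⟩, ?_, rfl⟩
      change Big N e0 e g (Sum.inr ⟨v, y, hy⟩) (Sum.inr ⟨v, z, hw⟩) ∈ N.B n
      have h3 : Big N e0 e g (Sum.inr ⟨v, y, hy⟩) (Sum.inr ⟨v, z, hw⟩) = e v.1 y z := se_same rfl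
      rw [h3]
      exact h

/-- the substructure is a member -/
theorem Hy.mem (hGLU : T_GLU) (hN : N.Sep) (hU : HUn2 N) (Y : Hy N e0 e g x S) :
    Mem N (EA N e0 e g x S) := by
  refine hGLU L N hN _ _ Y.coh ?_
  rintro ⟨k | ⟨v, y, hy⟩, h0⟩
  · refine ⟨ℕ, e 0, g 0 k, Y.R.m 0, ?_, Y.cnt_l k h0, ?_⟩
    · exact Y.R.w 0 k k
    · intro n hn
      refine Y.inf_l k h0 n ?_
      rw [← Set.encard_eq_top_iff, (Y.R.m 0).cnt n (g 0 k), Y.R.w 0 k k]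
      exact hn
  · have h3 : EA N e0 e g x S ⟨Sum.inr ⟨v, y, hy⟩, h0⟩ ⟨Sum.inr ⟨v, y, hy⟩, h0⟩ = e v.1 y y :=
      se_same rfl
    refine ⟨ℕ, e v.1, y, Y.R.m v.1, h3.symm, Y.cnt_r v y hy h0, ?_⟩
    intro n hn
    refine Y.inf_r hU v y hy h0 n ?_
    rw [← Set.encard_eq_top_iff, (Y.R.m v.1).cnt n y, ← h3]
    exact hn

/-! ### the algebraic part and the components -/

theorem Hy.wp_l (hWTR : T_WTR) (Y : Hy N e0 e g x S) (k : {x // Wp N e0 x}) :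
    Wp N (EA N e0 e g x S) (il k) := by
  refine hWTR L N ℕ _ e0 (EA N e0 e g x S) il (fun a b => rfl) ?_ k
  intro k hk
  have h1 : ∀ a ∈ Srt (EA N e0 e g x S) (e0 k k), ∃ k', a = il k' := by
    rintro ⟨a | ⟨v, y, hy⟩, ha⟩ h
    · exact ⟨a, rfl⟩
    · exfalso
      have h3 : EA N e0 e g x S ⟨Sum.inr ⟨v, y, hy⟩, ha⟩ ⟨Sum.inr ⟨v, y, hy⟩, ha⟩ = e v.1 y y :=
        se_same rfl
      have h4 : e v.1 y y = e0 k k := h3.symm.trans h
      have h5 : (Srt (e v.1) (e v.1 y y)).Infinite := srt_inf hy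
      rw [h4, ← Y.R.s v.1] at h5
      exact h5 hk
  refine Set.Finite.of_finite_image (f := num0) (hk.subset ?_) ?_
  · rintro _ ⟨a, ha, rfl⟩
    obtain ⟨k', rfl⟩ := h1 a ha
    exact ha
  · intro a ha b hb hab
    obtain ⟨k', rfl⟩ := h1 a ha
    obtain ⟨k'', rfl⟩ := h1 b hb
    have h2 : k' = k'' := Subtype.ext hab
    rw [h2]

theorem Hy.path (v : ℕ × ℕ) (y : ℕ) (hy : ¬ Wp N (e v.1) y)
    (h0 : (Sum.inr ⟨v, y, hy⟩ : SV N e0 (fun j : ℕ × ℕ => e j.1)) ∈ As N e0 e g x S) (z : ℕ)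
    (hc : Cm N (e v.1) y z) (hz : ¬ Wp N (e v.1) z)
    (h1 : (Sum.inr ⟨v, z, hz⟩ : SV N e0 (fun j : ℕ × ℕ => e j.1)) ∈ As N e0 e g x S) :
    Relation.ReflTransGen
      (fun a b => a ∉ {a : As N e0 e g x S | ∃ k, a.1 = Sum.inl k} ∧
        b ∉ {a : As N e0 e g x S | ∃ k, a.1 = Sum.inl k} ∧
        (¬ Op N (EA N e0 e g x S a b) ∨ ¬ Op N (EA N e0 e g x S b a)))
      ⟨Sum.inr ⟨v, y, hy⟩, h0⟩ ⟨Sum.inr ⟨v, z, hz⟩, h1⟩ := by
  induction hc with
  | refl => exact Relation.ReflTransGen.refl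
  | @tail z1 z2 hc1 hadj ih =>
    have h2 : (Sum.inr ⟨v, z1, hadj.1⟩ : SV N e0 (fun j : ℕ × ℕ => e j.1)) ∈ As N e0 e g x S :=
      as_cm h0 hc1
    refine (ih hadj.1 h2).tail ⟨?_, ?_, ?_⟩
    · rintro ⟨k, hk⟩
      cases hk
    · rintro ⟨k, hk⟩
      cases hk
    · have h3 : EA N e0 e g x S ⟨Sum.inr ⟨v, z1, hadj.1⟩, h2⟩ ⟨Sum.inr ⟨v, z2, hz⟩, h1⟩
        = e v.1 z1 z2 := se_same rfl
      have h4 : EA N e0 e g x S ⟨Sum.inr ⟨v, z2, hz⟩, h1⟩ ⟨Sum.inr ⟨v, z1, hadj.1⟩, h2⟩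
        = e v.1 z2 z1 := se_same rfl
      rw [h3, h4]
      exact hadj.2.2

theorem Hy.wch (hWTR : T_WTR) (hWCH : T_WCH) (Y : Hy N e0 e g x S) :
    (∀ a, Wp N (EA N e0 e g x S) a ↔ a ∈ {a : As N e0 e g x S | ∃ k, a.1 = Sum.inl k}) ∧
    ∀ a, a ∉ {a : As N e0 e g x S | ∃ k, a.1 = Sum.inl k} → ∀ b, Cm N (EA N e0 e g x S) a b ↔
      b ∉ {a : As N e0 e g x S | ∃ k, a.1 = Sum.inl k} ∧ cc a b := by
  refine hWCH L N _ (EA N e0 e g x S) {a : As N e0 e g x S | ∃ k, a.1 = Sum.inl k} cc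
    ?_ ?_ ?_ ?_ ?_ cc_refl cc_symm cc_trans
  · rintro ⟨a | v, ha⟩ hk
    · exact Y.wp_l hWTR a
    · obtain ⟨k, hk⟩ := hk
      cases hk
  · rintro ⟨k | v, h0⟩ hk ⟨a | w, ha⟩ h
    · exact absurd ⟨a, rfl⟩ h
    · exact op_lr k w
    · obtain ⟨k, hk⟩ := hk
      cases hk
    · obtain ⟨k, hk⟩ := hk
      cases hk
  · rintro ⟨a | ⟨v, y, hy⟩, ha⟩ h
    · exact absurd ⟨a, rfl⟩ h
    · refine inf_cop (Y.col v.1 y hy) ?_
      rintro v' ⟨z', hz', hm, he⟩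
      refine ⟨⟨_, hm⟩, ?_, rfl⟩
      have h3 : EA N e0 e g x S ⟨Sum.inr ⟨v, y, hy⟩, ha⟩ ⟨Sum.inr ⟨v, y, hy⟩, ha⟩ = e v.1 y y :=
        se_same rfl
      have h4 : EA N e0 e g x S ⟨Sum.inr ⟨v', z', hz'⟩, hm⟩ ⟨Sum.inr ⟨v', z', hz'⟩, hm⟩
        = e v'.1 z' z' := se_same rfl
      change EA N e0 e g x S ⟨Sum.inr ⟨v', z', hz'⟩, hm⟩ ⟨Sum.inr ⟨v', z', hz'⟩, hm⟩
        = EA N e0 e g x S ⟨Sum.inr ⟨v, y, hy⟩, ha⟩ ⟨Sum.inr ⟨v, y, hy⟩, ha⟩
      rw [h3, h4, he]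
  · rintro ⟨a | v, ha⟩ h ⟨b | w, hb⟩ h' hc
    · exact absurd ⟨a, rfl⟩ h
    · exact absurd ⟨a, rfl⟩ h
    · exact absurd ⟨b, rfl⟩ h'
    · by_cases hvw : v.1 = w.1
      · have h3 : EA N e0 e g x S ⟨Sum.inr v, ha⟩ ⟨Sum.inr w, hb⟩ = e v.1.1 v.2 w.2 :=
          se_same hvw
        rw [h3]
        refine op_of_cm v.2.2 ?_ ?_
        · rw [hvw]
          exact w.2.2
        · intro hcm
          exact hc ⟨hvw, hcm⟩
      · have h3 : EA N e0 e g x S ⟨Sum.inr v, ha⟩ ⟨Sum.inr w, hb⟩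
          = fr N (e v.1.1 v.2 v.2) (e w.1.1 w.2 w.2) := se_diff hvw
        rw [h3]
        exact (Y.H.fr v w hvw).2.2.2.2.1
  · rintro ⟨a | ⟨v, y, hy⟩, ha⟩ h ⟨b | ⟨w, z, hz⟩, hb⟩ h' hc
    · exact absurd ⟨a, rfl⟩ h
    · exact absurd ⟨a, rfl⟩ h
    · exact absurd ⟨b, rfl⟩ h'
    · obtain ⟨h1, h2⟩ := hc
      change v = w at h1
      subst h1
      exact Hy.path v y hy ha z h2 hz hb

end Main

theorem pf_CLM (hGLU : T_GLU) (hWTR : T_WTR) (hWCH : T_WCH) (hCLA : T_CLA) (hSFH : T_SFH) :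
    T_CLM := by
  intro L N hN hF hU e0 e g x R S
  have Y : Hy N e0 e g x S := by
    refine ⟨R, ?_, ?_⟩
    · exact hSFH L N hN hF hU e0 (ℕ × ℕ) (fun j => e j.1) (fun j => g j.1) R.m0
        (fun j => R.m j.1) (fun j q => R.s j.1 q) (fun j => R.w j.1)
    · exact fun j y hy θ hθ => hCLA L N e0 e g x R S j y hy θ hθ
  obtain ⟨h1, h2⟩ := Y.wch hWTR hWCH
  refine ⟨Y.mem hGLU hN hU, fun a => h1 a, ?_⟩
  intro v w hv hw
  have h3 : (⟨Sum.inr v, hv⟩ : As N e0 e g x S) ∉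
      {a : As N e0 e g x S | ∃ k, a.1 = Sum.inl k} := by
    rintro ⟨k, hk⟩
    cases hk
  have h4 : (⟨Sum.inr w, hw⟩ : As N e0 e g x S) ∉
      {a : As N e0 e g x S | ∃ k, a.1 = Sum.inl k} := by
    rintro ⟨k, hk⟩
    cases hk
  constructor
  · intro h
    exact ((h2 _ h3 _).1 h).2
  · intro h
    exact (h2 _ h3 _).2 ⟨h4, h⟩

end Pool.Agent.H54.CQ
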